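import Pool.Agent.Helper14.WK.StA

/-!
# Project WK (MP_3c9520_nt): module KA3, transformation of the primitives
-/

set_option autoImplicit false

namespace Pool.Agent.Helper80.WK

open Pool.Agent.Helper14.WK
open Pool.Agent.Helper14.CV (G0)

private theorem cst (D : ℂ → ℂ) (h : ∀ z : ℂ, 0 < z.im → HasDerivAt D 0 z) :
    ∃ k : ℂ, ∀ z : ℂ, 0 < z.im → D z = k := by
  have hs : IsOpen {z : ℂ | 0 < z.im} := isOpen_lt continuous_const Complex.continuous_im
  have hp : IsPreconnected {z : ℂ | 0 < z.im} := (convex_halfSpace_im_gt 0).isPreconnected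
  obtain ⟨k, hk⟩ := hs.exists_is_const_of_deriv_eq_zero hp
    (fun z hz => (h z hz).differentiableAt.differentiableWithinAt) (fun z hz => (h z hz).deriv)
  exact ⟨k, fun z hz => hk z hz⟩

private theorem mob_deriv (a b c d z : ℂ) (h : c * z + d ≠ 0) :
    HasDerivAt (fun z : ℂ => (a * z + b) / (c * z + d)) ((a * d - b * c) / (c * z + d) ^ 2) z := by
  have e1 : HasDerivAt (fun z : ℂ => a * z + b) a z := by
    simpa using ((hasDerivAt_id z).const_mul a).add_const b
  have e2 : HasDerivAt (fun z : ℂ => c * z + d) c z := by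
    simpa using ((hasDerivAt_id z).const_mul c).add_const d
  refine (e1.fun_div e2 h).congr_deriv ?_
  congr 1
  ring

private theorem comp_der (F g : ℂ → ℂ) (F' g' z : ℂ) (e2 : HasDerivAt F F' (g z))
    (e1 : HasDerivAt g g' z) : HasDerivAt (fun z => F (g z)) (F' * g') z := e2.comp z e1

private theorem den_ne (a b c d : ℤ) (hD : 0 < a * d - b * c) (z : ℂ) (hz : 0 < z.im) :
    (c * z + d : ℂ) ≠ 0 := by
  intro h
  have h1 := congrArg Complex.im h
  have h2 := congrArg Complex.re h
  simp only [Complex.add_im, Complex.add_re, Complex.mul_im, Complex.mul_re, Complex.intCast_re,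
    Complex.intCast_im, Complex.zero_re, Complex.zero_im, zero_mul, add_zero, sub_zero] at h1 h2
  have hc : (c : ℝ) = 0 := (mul_eq_zero.1 h1).resolve_right hz.ne'
  rw [hc, zero_mul, zero_add] at h2
  have hc' : c = 0 := by exact_mod_cast hc
  have hd' : d = 0 := by exact_mod_cast h2
  rw [hc', hd'] at hD
  simp at hD

private theorem im_pos (a b c d : ℤ) (hD : 0 < a * d - b * c) (z : ℂ) (hz : 0 < z.im) :
    0 < ((a * z + b) / (c * z + d) : ℂ).im := by
  have hn : 0 < Complex.normSq (c * z + d : ℂ) := Complex.normSq_pos.2 (den_ne a b c d hD z hz)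
  have hD' : (0 : ℝ) < a * d - b * c := by exact_mod_cast hD
  have e : ((a * z + b) / (c * z + d) : ℂ).im =
      (a * d - b * c) * z.im / Complex.normSq (c * z + d : ℂ) := by
    rw [Complex.div_im]
    simp only [Complex.add_im, Complex.add_re, Complex.mul_im, Complex.mul_re, Complex.intCast_re,
      Complex.intCast_im, zero_mul, add_zero, sub_zero]
    ring
  rw [e]
  positivity

private theorem aeval_mp (A : ℕ) (a b c d : ℤ) (j : ℕ) (z : ℂ) :
    Polynomial.aeval z (mp A a b c d j) = (a * z + b) ^ j * (c * z + d) ^ (2 * A - j) := by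
  simp [mp]

theorem hKA3 (he : SKE) : SKA3 := by
  intro N hN A f a b c d κ hD hf j hj
  have key := cst (fun z => EK f j ((a * z + b) / (c * z + d)) -
      κ * (a * d - b * c : ℤ) * prE f (mp A a b c d j) z) (by
    intro z hz
    have k1 := den_ne a b c d hD z hz
    have k2 := im_pos a b c d hD z hz
    have e1 := mob_deriv a b c d z k1
    have e2 := (he N hN (2 * A + 2) f _ k2).1 j
    have e3 := ((he N hN (2 * A + 2) f _ hz).2 (mp A a b c d j)).const_mul
      (κ * (a * d - b * c : ℤ))
    have e4 : HasDerivAt (fun z => EK f j ((a * z + b) / (c * z + d)) -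
      κ * (a * d - b * c : ℤ) * prE f (mp A a b c d j) z) _ z :=
      (comp_der (EK f j) (fun z => (a * z + b) / (c * z + d)) _ _ z e2 e1).fun_sub e3
    refine e4.congr_deriv ?_
    rw [hf z hz, aeval_mp, div_pow]
    have e5 : (c * z + d : ℂ) ^ (2 * A + 2) =
        (c * z + d : ℂ) ^ (2 * A - j) * (c * z + d : ℂ) ^ j * (c * z + d : ℂ) ^ 2 := by
      rw [← pow_add, ← pow_add]
      congr 1
      omega
    rw [e5]
    push_cast
    field_simp
    ring)
  obtain ⟨C, hC⟩ := key
  exact ⟨C, fun z hz => by linear_combination hC z hz⟩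

end Pool.Agent.Helper80.WK
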